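import Pool.Agent.Q196.FL.Free

/-!
# Multi-reflexive free locally convex spaces are Schwartz spaces

For every Tychonoff space `X`: if the free locally convex space `L(X)` is multi-reflexive, then it
is a Schwartz space.  So the answer to Q1 is no.

Outline.  Let `T : L(X) → B` be an operator into a Banach space.  `B` is a quotient of
`ℓ₁(J)`, `J` the unit ball of `B`, and by the Bartle-Graves theorem the quotient map `q` has a
continuous right inverse `s`.  The continuous map `x ↦ s (T x)`, `X → ℓ₁(J)`, extends to an operator
`Ψ : L(X) → ℓ₁(J)`, and `q ∘ Ψ = T` because both operators agree on `X`.  If `L(X)` embeds into a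
product of reflexive spaces, then `Ψ` is dominated by finitely many operators into reflexive spaces,
so every sequence in the image under `Ψ` of some neighbourhood of zero has weak limits along
ultrafilters in `ℓ₁(J)`, and by a gliding hump argument (as for the Schur property) this image is
totally bounded.
-/

namespace Pool.Agent.Results.MP_c73427_an.MultiReflexiveIsSchwartz

open Topology

universe u

/-- `δ : X → E` makes `E` the free (Hausdorff) locally convex space over `X`: `δ` is continuous, and
each continuous map of `X` to a Hausdorff locally convex space `F` has exactly one extension to a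
continuous linear map `E → F`. -/
def IsFreeLCS {X : Type u} [TopologicalSpace X] {E : Type u} [AddCommGroup E] [Module ℝ E]
    [TopologicalSpace E] (δ : X → E) : Prop :=
  Continuous δ ∧ ∀ (F : Type u) [AddCommGroup F] [Module ℝ F] [TopologicalSpace F]
    [IsTopologicalAddGroup F] [ContinuousSMul ℝ F] [LocallyConvexSpace ℝ F] [T2Space F]
    (f : X → F), Continuous f → ∃! T : E →L[ℝ] F, ∀ x, T (δ x) = f x

/-- `E` is multi-reflexive: it is isomorphic to a linear subspace of a product of reflexive Banach
spaces, that is, there are reflexive Banach spaces `R i` and operators `p i : E → R i` such that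
`x ↦ (p i x)_i` is a topological embedding. -/
def MultiReflexive (E : Type u) [AddCommGroup E] [Module ℝ E] [TopologicalSpace E] : Prop :=
  ∃ (ι : Type u) (R : ι → Type u) (_ : ∀ i, NormedAddCommGroup (R i))
    (_ : ∀ i, NormedSpace ℝ (R i)) (p : ∀ i, E →L[ℝ] R i), (∀ i, CompleteSpace (R i)) ∧
    (∀ i, Function.Surjective (NormedSpace.inclusionInDoubleDual ℝ (R i))) ∧
    IsEmbedding (fun (x : E) (i : ι) => p i x)

/-- `E` is a Schwartz space: every continuous linear map from `E` into a Banach space sends some
neighbourhood of zero to a set with compact closure. -/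
def IsSchwartz (E : Type u) [AddCommGroup E] [Module ℝ E] [TopologicalSpace E] : Prop :=
  ∀ (B : Type u) [NormedAddCommGroup B] [NormedSpace ℝ B] [CompleteSpace B] (T : E →L[ℝ] B),
    ∃ U ∈ 𝓝 (0 : E), IsCompact (closure (T '' U))

/-- For every Tychonoff space `X` with free locally convex space `E = L(X)`: if `L(X)` is
multi-reflexive, then `L(X)` is a Schwartz space. -/
theorem result (X : Type u) [TopologicalSpace X] [T35Space X]
    (E : Type u) [AddCommGroup E] [Module ℝ E] [TopologicalSpace E] [IsTopologicalAddGroup E]
    [ContinuousSMul ℝ E] [LocallyConvexSpace ℝ E] [T2Space E] (δ : X → E) (hδ : IsFreeLCS δ)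
    (hE : MultiReflexive E) : IsSchwartz E :=
  Pool.Agent.Q196.FL.schwartz_of_multiReflexive (δ := δ) hδ hE

end Pool.Agent.Results.MP_c73427_an.MultiReflexiveIsSchwartz
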